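import Mathlib
import Pool.Agent.Lib.SecantPosition
import Pool.Agent.Quad4.Main

/-!
# The Secant Conjecture for four rectangles with half of the rows

Schubert problems `(λ¹, λ², λ³, λ⁴)` in `Gr(2p, 2p + r)` with `λʲ = (c_j^p, 0^p)`, for all `p ≥ 1`
and all `1 ≤ c_j ≤ r` with `c_1 + c_2 + c_3 + c_4 = 2r`; the number of solutions is
`(p + s).choose p`, where `s` is the smallest of the numbers `c_j` and `r - c_j`.
-/

set_option autoImplicit false

namespace Pool.Agent.Results.MP_0c25eb_ag.FourFlags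

open Module

/-- The point `γ(s) = (1, s, s², …, s^(n-1))` of `ℂⁿ` on the rational normal curve. -/
noncomputable def gammaPt (n : ℕ) (s : ℝ) : Fin n → ℂ := fun b => (s : ℂ) ^ (b : ℕ)

/-- The `d`-dimensional member `F_d` of the secant flag with points of secancy
`t 0, t 1, …, t (n-1)`: the linear span of `γ(t 0), …, γ(t (d-1))`. -/
noncomputable def secantFlag {n : ℕ} (t : Fin n → ℝ) (d : ℕ) : Submodule ℂ (Fin n → ℂ) :=
  Submodule.span ℂ ((fun a : Fin n => gammaPt n (t a)) '' {a | (a : ℕ) < d})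

/-- The dimension `n - k + i - λ_i` in the `i`-th Schubert condition; the index `i : Fin k` here is
`i - 1` in this formula. -/
def condDim {k : ℕ} (n : ℕ) (lam : Fin k → ℕ) (i : Fin k) : ℕ := n - k + ((i : ℕ) + 1) - lam i

/-- The Schubert variety `X_λ F_•` in `Gr(k, n)` of a secant flag: all `H` with `dim H = k` and
`dim (H ∩ F_{n-k+i-λ_i}) ≥ i` for `i = 1, …, k` (the index `i : Fin k` below is `i - 1`). -/
def schubertVariety {n : ℕ} (k : ℕ) (lam : Fin k → ℕ) (t : Fin n → ℝ) :
    Set (Submodule ℂ (Fin n → ℂ)) :=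
  {H | finrank ℂ H = k ∧
    ∀ i : Fin k, (i : ℕ) + 1 ≤ finrank ℂ ↥(H ⊓ secantFlag t (condDim n lam i))}

/-- The flags with points of secancy `t j` are disjoint secant flags: the points of each flag are
distinct, and of any two flags, all points of one lie to the left of all points of the other. -/
def DisjointSecant {n r : ℕ} (t : Fin r → Fin n → ℝ) : Prop :=
  (∀ j, Function.Injective (t j)) ∧
    ∀ j j', j ≠ j' → (∀ a b, t j a < t j' b) ∨ (∀ a b, t j' a < t j b)

/-- The intersection of the Schubert varieties `X_{λ^j} F^j` in `Gr(k, n)`. -/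
def solutions {n r : ℕ} (k : ℕ) (lam : Fin r → Fin k → ℕ) (t : Fin r → Fin n → ℝ) :
    Set (Submodule ℂ (Fin n → ℂ)) :=
  ⋂ j, schubertVariety k (lam j) (t j)

/-- `i` is a corner of the partition: `λ_{i+1} < λ_i`, or `i` is the last index. The conditions at
the corners define the Schubert variety. -/
def IsCorner {k : ℕ} (lam : Fin k → ℕ) (i : Fin k) : Prop :=
  ∀ i' : Fin k, (i' : ℕ) = (i : ℕ) + 1 → lam i' < lam i

/-- At all corners `i` the dimension of `H ∩ F_{n-k+i-λ_i}` is exactly `i` (so `H` is a smooth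
point of each Schubert variety). -/
def ExactDims {n r k : ℕ} (lam : Fin r → Fin k → ℕ) (t : Fin r → Fin n → ℝ)
    (H : Submodule ℂ (Fin n → ℂ)) : Prop :=
  ∀ j i, IsCorner (lam j) i → finrank ℂ ↥(H ⊓ secantFlag (t j) (condDim n (lam j) i)) = i + 1

/-- The only linear map `φ : H → ℂⁿ/H` with `φ (H ∩ F) ⊆ (F + H)/H` for all `F = F^j_{n-k+i-λ^j_i}`,
`i` a corner of `λ^j`, is `0`: the tangent spaces at `H` of the Schubert varieties meet in `0`. -/
def TangentZero {n r k : ℕ} (lam : Fin r → Fin k → ℕ) (t : Fin r → Fin n → ℝ)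
    (H : Submodule ℂ (Fin n → ℂ)) : Prop :=
  ∀ φ : ↥H →ₗ[ℂ] ((Fin n → ℂ) ⧸ H),
    (∀ j i, IsCorner (lam j) i → ∀ v : ↥H,
      (v : Fin n → ℂ) ∈ secantFlag (t j) (condDim n (lam j) i) →
        φ v ∈ (secantFlag (t j) (condDim n (lam j) i)).map H.mkQ) → φ = 0

/-- `H` is real: stable under complex conjugation. -/
def IsRealSpace {n : ℕ} (H : Submodule ℂ (Fin n → ℂ)) : Prop := ∀ v ∈ H, star v ∈ H

/-- The rectangle `(c, …, c, 0, …, 0)` with `p` parts equal to `c` and `p` parts equal to `0`. -/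
def rect (p c : ℕ) : Fin (2 * p) → ℕ := fun i => if (i : ℕ) < p then c else 0

/-- The smallest of the numbers `c j` and `r - c j`. -/
def slack (r : ℕ) (c : Fin 4 → ℕ) : ℕ :=
  Finset.univ.inf' Finset.univ_nonempty fun j => min (c j) (r - c j)

/-! ### The essential conditions -/

lemma secantFlag_eq {n : ℕ} (t : Fin n → ℝ) (d : ℕ) :
    secantFlag t d = SecantPosition.sflag t d := rfl

lemma finrank_secantFlag {n d : ℕ} (hd : d ≤ n) {t : Fin n → ℝ} (ht : Function.Injective t) :
    finrank ℂ (secantFlag t d) = d := SecantPosition.finrank_sflag hd ht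

lemma secantFlag_mono {n d d' : ℕ} (h : d ≤ d') (t : Fin n → ℝ) :
    secantFlag t d ≤ secantFlag t d' := SecantPosition.sflag_mono h t

lemma inf_finrank {V : Type*} [AddCommGroup V] [Module ℂ V] [FiniteDimensional ℂ V]
    {U F F' : Submodule ℂ V} (hU : U ≤ F) (hF : F' ≤ F) :
    finrank ℂ U + finrank ℂ F' ≤ finrank ℂ ↥(U ⊓ F') + finrank ℂ F := by
  have h1 := Submodule.finrank_sup_add_finrank_inf_eq U F'
  have h2 : finrank ℂ ↥(U ⊔ F') ≤ finrank ℂ F := Submodule.finrank_mono (sup_le hU hF)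
  omega

/-- Passing from a member of a flag to a smaller one. -/
lemma drop {n : ℕ} {t : Fin n → ℝ} (ht : Function.Injective t) (H : Submodule ℂ (Fin n → ℂ))
    {d d' a : ℕ} (hd : d ≤ n) (hdd : d' ≤ d) (h : a ≤ finrank ℂ ↥(H ⊓ secantFlag t d)) :
    a + d' ≤ finrank ℂ ↥(H ⊓ secantFlag t d') + d := by
  have h3 := inf_finrank (U := H ⊓ secantFlag t d) (F := secantFlag t d)
    (F' := secantFlag t d') inf_le_right (secantFlag_mono hdd t)
  rw [finrank_secantFlag (hdd.trans hd) ht, finrank_secantFlag hd ht, inf_assoc,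
    inf_eq_right.mpr (secantFlag_mono hdd t)] at h3
  omega

lemma rect1 {p c : ℕ} {i : Fin (2 * p)} (h : (i : ℕ) < p) : rect p c i = c := by
  simp only [rect]; rw [if_pos h]

lemma rect2 {p c : ℕ} {i : Fin (2 * p)} (h : ¬ (i : ℕ) < p) : rect p c i = 0 := by
  simp only [rect]; rw [if_neg h]

/-- The corners of the partition. -/
lemma corner_cases {p c : ℕ} {i : Fin (2 * p)} (h : IsCorner (rect p c) i) :
    (i : ℕ) = p - 1 ∨ (i : ℕ) = 2 * p - 1 := by
  have hi := i.2
  by_contra hcon
  push Not at hcon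
  obtain ⟨h1, h2⟩ := hcon
  have h4 := h ⟨(i : ℕ) + 1, by omega⟩ rfl
  by_cases c1 : (i : ℕ) < p
  · rw [rect1 c1, rect1 (by show (i : ℕ) + 1 < p; omega)] at h4
    omega
  · rw [rect2 c1, rect2 (by show ¬ (i : ℕ) + 1 < p; omega)] at h4
    omega

lemma corner1 {p c : ℕ} (hp : 0 < p) (hc : 0 < c) :
    IsCorner (rect p c) ⟨p - 1, by omega⟩ := by
  intro i' hi'
  have e : (i' : ℕ) = p := by rw [hi']; show p - 1 + 1 = p; omega
  rw [rect1 (i := ⟨p - 1, _⟩) (by show p - 1 < p; omega), rect2 (by omega)]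
  exact hc

lemma condDim1 {p r c n : ℕ} (hp : 0 < p) (hc : c ≤ r) (hn : n = 2 * p + r) :
    condDim n (rect p c) ⟨p - 1, by omega⟩ = p + r - c := by
  rw [condDim, rect1 (by show p - 1 < p; omega)]
  show n - 2 * p + (p - 1 + 1) - c = p + r - c
  omega

/-- Only the essential condition matters. -/
lemma mem_schubert {p r c n : ℕ} (hp : 0 < p) (hc : c ≤ r) (hn : n = 2 * p + r) {t : Fin n → ℝ}
    (ht : Function.Injective t) (H : Submodule ℂ (Fin n → ℂ)) :
    H ∈ schubertVariety (2 * p) (rect p c) t ↔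
      finrank ℂ H = 2 * p ∧ p ≤ finrank ℂ ↥(H ⊓ secantFlag t (p + r - c)) := by
  constructor
  · rintro ⟨h1, h2⟩
    refine ⟨h1, ?_⟩
    have h3 : (p - 1) + 1 ≤ finrank ℂ ↥(H ⊓ secantFlag t
        (condDim n (rect p c) ⟨p - 1, by omega⟩)) := h2 ⟨p - 1, by omega⟩
    rw [condDim1 hp hc hn] at h3
    omega
  · rintro ⟨h1, h2⟩
    refine ⟨h1, fun i => ?_⟩
    have hi2 := i.2
    rw [condDim]
    by_cases hi : (i : ℕ) < p
    · rw [rect1 hi]
      have e2 : n - 2 * p + ((i : ℕ) + 1) - c = r + ((i : ℕ) + 1) - c := by omega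
      rw [e2]
      have h4 := drop ht H (d := p + r - c) (d' := r + ((i : ℕ) + 1) - c) (by omega) (by omega) h2
      omega
    · rw [rect2 hi]
      have h5 : secantFlag t n = ⊤ := SecantPosition.sflag_top ht
      have h4 := drop ht H (a := 2 * p) (d := n) (d' := n - 2 * p + ((i : ℕ) + 1) - 0) le_rfl
        (by omega) (by rw [h5, inf_top_eq, h1])
      omega

/-! ### The theorem -/

open Pool.Agent.Quad4 in
/-- The theorem for ordered intervals of secancy. -/
lemma core_ordered {p r n m : ℕ} {c : Fin 4 → ℕ} (hp : 0 < p) (hc : ∀ j, 1 ≤ c j ∧ c j ≤ r)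
    (hsum : ∑ j, c j = 2 * r) (hn : n = 2 * p + r)
    (hm : ∀ j, m ≤ p + r - c j ∧ m + (p + r - c j) ≤ n)
    (hm' : ∃ j, p + r - c j = m ∨ m + (p + r - c j) = n) {t : Fin 4 → Fin n → ℝ}
    (ht : ∀ j, Function.Injective (t j)) (hord : ∀ j j', j < j' → ∀ a b, t j a < t j' b) :
    (solutions (2 * p) (fun j => rect p (c j)) t).Finite ∧
    (solutions (2 * p) (fun j => rect p (c j)) t).ncard = m.choose p ∧
    ∀ H ∈ solutions (2 * p) (fun j => rect p (c j)) t, IsRealSpace H ∧
      ExactDims (fun j => rect p (c j)) t H ∧ TangentZero (fun j => rect p (c j)) t H := by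
  classical
  obtain ⟨sub, hgood, hreal⟩ := exists_good (d := fun j => p + r - c j) (by omega) ht hord hm (by
    rw [Fin.sum_univ_four] at hsum ⊢
    have h0 := hc 0
    have h1 := hc 1
    have h2 := hc 2
    have h3 := hc 3
    omega) hm'
  have hX : solutions (2 * p) (fun j => rect p (c j)) t =
      sub '' {S : Finset (Fin m) | S.card = p} := by
    ext H
    rw [solutions, Set.mem_iInter]
    constructor
    · intro h
      have h1 := fun j => (mem_schubert hp (hc j).2 hn (ht j) H).mp (h j)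
      obtain ⟨S, hS, rfl⟩ := (hgood.mem_iff p H).mp ⟨(h1 0).1, by
        rintro _ ⟨j, rfl⟩
        exact (h1 j).2⟩
      exact ⟨S, hS, rfl⟩
    · rintro ⟨S, hS, rfl⟩ j
      rw [mem_schubert hp (hc j).2 hn (ht j)]
      obtain ⟨h1, h2⟩ := (hgood.mem_iff p (sub S)).mpr ⟨S, hS, rfl⟩
      exact ⟨h1, h2 _ ⟨j, rfl⟩⟩
  have hset : {S : Finset (Fin m) | S.card = p} =
      ((Finset.univ.powersetCard p : Finset (Finset (Fin m))) : Set (Finset (Fin m))) := by
    ext S
    simp [Finset.mem_powersetCard]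
  rw [hX]
  refine ⟨(Set.toFinite _).image _, ?_, ?_⟩
  · rw [Set.ncard_image_of_injective _ hgood.inj, hset, Set.ncard_coe_finset,
      Finset.card_powersetCard, Finset.card_univ, Fintype.card_fin]
  · rintro _ ⟨S, hS, rfl⟩
    have hS' : S.card = p := hS
    refine ⟨fun v hv => hreal S v hv, ?_, ?_⟩
    · intro j i hcor
      rcases corner_cases hcor with h | h
      · have e : i = ⟨p - 1, by omega⟩ := Fin.ext h
        rw [e, condDim1 hp (hc j).2 hn]
        have h1 := hgood.exact S _ ⟨j, rfl⟩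
        rw [hS'] at h1
        refine Eq.trans h1 ?_
        show p = p - 1 + 1
        omega
      · have e1 : condDim n (rect p (c j)) i = n := by
          rw [condDim, rect2 (by omega)]
          omega
        have e2 : secantFlag (t j) n = ⊤ := SecantPosition.sflag_top (ht j)
        rw [e1, e2, inf_top_eq, hgood.dim, hS', h]
        omega
    · intro φ hφ
      refine hgood.tangent S φ ?_
      rintro _ ⟨j, rfl⟩ v hv
      have h1 := hφ j ⟨p - 1, by omega⟩ (corner1 hp (hc j).1) v
      rw [condDim1 hp (hc j).2 hn] at h1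
      obtain ⟨f, hf, hf2⟩ := h1 hv
      exact ⟨f, hf, hf2.symm⟩

/-- **The Secant Conjecture for four rectangles with half of the rows.**  For all `p ≥ 1`, `r` and
`1 ≤ c_j ≤ r` with `c_1 + c_2 + c_3 + c_4 = 2r`, the Schubert problem `(λ¹, λ², λ³, λ⁴)` with
`λʲ = (c_j^p, 0^p)` in `Gr(2p, 2p + r)` and any four disjoint secant flags: the intersection of the
four Schubert varieties is finite, it consists of exactly `(p + s).choose p` points, where `s` is
the smallest of the numbers `c_j` and `r - c_j`, every point `H` is real, `H` is in general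
relative position to the four flags at the corners of `λʲ` (so that `H` is a smooth point of each
of the four Schubert varieties), and the tangent spaces of the four Schubert varieties at `H` meet
in `0` (so that the intersection is transverse at `H`). -/
theorem result (p r n : ℕ) (c : Fin 4 → ℕ) (hp : 1 ≤ p) (hc : ∀ j, 1 ≤ c j ∧ c j ≤ r)
    (hsum : ∑ j, c j = 2 * r) (hn : n = 2 * p + r) (t : Fin 4 → Fin n → ℝ)
    (ht : DisjointSecant t) :
    (solutions (2 * p) (fun j => rect p (c j)) t).Finite ∧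
      (solutions (2 * p) (fun j => rect p (c j)) t).ncard = (p + slack r c).choose p ∧
      ∀ H ∈ solutions (2 * p) (fun j => rect p (c j)) t, IsRealSpace H ∧
        ExactDims (fun j => rect p (c j)) t H ∧ TangentZero (fun j => rect p (c j)) t H := by
  obtain ⟨hinj, hsep⟩ := ht
  have hn0 : 0 < n := by omega
  have hs1 : ∀ j, slack r c ≤ min (c j) (r - c j) := fun j => by
    rw [slack]
    exact Finset.inf'_le _ (Finset.mem_univ j)
  have hs2 : ∃ j, slack r c = min (c j) (r - c j) := by
    obtain ⟨j, _, hj⟩ := Finset.exists_mem_eq_inf' (s := (Finset.univ : Finset (Fin 4)))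
      Finset.univ_nonempty (fun j => min (c j) (r - c j))
    exact ⟨j, hj⟩
  set f : Fin 4 → ℝ := fun j => t j ⟨0, hn0⟩ with hf
  set σ := Tuple.sort f with hσ
  have hmono : Monotone (f ∘ σ) := Tuple.monotone_sort f
  have hord : ∀ j j', j < j' → ∀ a b, t (σ j) a < t (σ j') b := by
    intro j j' hjj'
    have h1 : f (σ j) ≤ f (σ j') := hmono hjj'.le
    rcases hsep (σ j) (σ j') (fun h => hjj'.ne (σ.injective h)) with h | h
    · exact h
    · exact absurd h1 (not_le.mpr (h _ _))
  have key := core_ordered (t := fun j => t (σ j)) (c := fun j => c (σ j))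
    (m := p + slack r c) hp (fun j => hc (σ j))
    (by rw [← hsum]; exact Equiv.sum_comp σ c) hn
    (fun j => by
      have h1 := hs1 (σ j)
      have h2 := hc (σ j)
      rw [le_min_iff] at h1
      omega)
    (by
      obtain ⟨j, hj⟩ := hs2
      refine ⟨σ.symm j, ?_⟩
      rw [Equiv.apply_symm_apply]
      have h2 := hc j
      rcases min_choice (c j) (r - c j) with h | h
      · right; rw [h] at hj; omega
      · left; rw [h] at hj; omega)
    (fun j => hinj (σ j)) hord
  have hX : solutions (2 * p) (fun j => rect p (c (σ j))) (fun j => t (σ j)) =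
      solutions (2 * p) (fun j => rect p (c j)) t :=
    σ.surjective.iInter_comp (fun j => schubertVariety (2 * p) (rect p (c j)) (t j))
  rw [hX] at key
  obtain ⟨k1, k2, k3⟩ := key
  refine ⟨k1, k2, fun H hH => ?_⟩
  obtain ⟨c1, c2, c3⟩ := k3 H hH
  refine ⟨c1, fun j i hcor => ?_, fun φ hφ => c3 φ (fun j => hφ (σ j))⟩
  obtain ⟨j', rfl⟩ := σ.surjective j
  exact c2 j' i hcor

end Pool.Agent.Results.MP_0c25eb_ag.FourFlags
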