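import Mathlib
import Pool.Agent.Lib.SecantPosition
import Pool.Agent.Lib.TwoFlags

/-!
# The Secant Conjecture with full-height rectangles

Schubert problems in `Gr(k, n)` in which all partitions but two are of the form `(a, a, …, a)`
(`k` equal parts).  The two exceptional partitions are arbitrary.
-/

set_option autoImplicit false

namespace Pool.Agent.Results.MP_0c25eb_ag.FullHeightRectangles

open Module

/-- The point `γ(s) = (1, s, s², …, s^(n-1))` of `ℂⁿ` on the rational normal curve. -/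
noncomputable def gammaPt (n : ℕ) (s : ℝ) : Fin n → ℂ := fun b => (s : ℂ) ^ (b : ℕ)

/-- The `d`-dimensional member `F_d` of the secant flag with points of secancy
`t 0, t 1, …, t (n-1)`: the linear span of `γ(t 0), …, γ(t (d-1))`. -/
noncomputable def secantFlag {n : ℕ} (t : Fin n → ℝ) (d : ℕ) : Submodule ℂ (Fin n → ℂ) :=
  Submodule.span ℂ ((fun a : Fin n => gammaPt n (t a)) '' {a | (a : ℕ) < d})

/-- The dimension `n - k + i - λ_i` in the `i`-th Schubert condition; the index `i : Fin k` here is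
`i - 1` in this formula. -/
def condDim {k : ℕ} (n : ℕ) (lam : Fin k → ℕ) (i : Fin k) : ℕ := n - k + ((i : ℕ) + 1) - lam i

/-- The Schubert variety `X_λ F_•` in `Gr(k, n)` of a secant flag: all `H` with `dim H = k` and
`dim (H ∩ F_{n-k+i-λ_i}) ≥ i` for `i = 1, …, k` (the index `i : Fin k` below is `i - 1`). -/
def schubertVariety {n : ℕ} (k : ℕ) (lam : Fin k → ℕ) (t : Fin n → ℝ) :
    Set (Submodule ℂ (Fin n → ℂ)) :=
  {H | finrank ℂ H = k ∧
    ∀ i : Fin k, (i : ℕ) + 1 ≤ finrank ℂ ↥(H ⊓ secantFlag t (condDim n lam i))}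

/-- The flags with points of secancy `t j` are disjoint secant flags: the points of each flag are
distinct, and of any two flags, all points of one lie to the left of all points of the other. -/
def DisjointSecant {n r : ℕ} (t : Fin r → Fin n → ℝ) : Prop :=
  (∀ j, Function.Injective (t j)) ∧
    ∀ j j', j ≠ j' → (∀ a b, t j a < t j' b) ∨ (∀ a b, t j' a < t j b)

/-- The intersection of the Schubert varieties `X_{λ^j} F^j` in `Gr(k, n)`. -/
def solutions {n r : ℕ} (k : ℕ) (lam : Fin r → Fin k → ℕ) (t : Fin r → Fin n → ℝ) :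
    Set (Submodule ℂ (Fin n → ℂ)) :=
  ⋂ j, schubertVariety k (lam j) (t j)

/-- `i` is a corner of the partition: `λ_{i+1} < λ_i`, or `i` is the last index. The conditions at
the corners define the Schubert variety. -/
def IsCorner {k : ℕ} (lam : Fin k → ℕ) (i : Fin k) : Prop :=
  ∀ i' : Fin k, (i' : ℕ) = (i : ℕ) + 1 → lam i' < lam i

/-- At all corners `i` the dimension of `H ∩ F_{n-k+i-λ_i}` is exactly `i` (so `H` is a smooth
point of each Schubert variety). -/
def ExactDims {n r k : ℕ} (lam : Fin r → Fin k → ℕ) (t : Fin r → Fin n → ℝ)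
    (H : Submodule ℂ (Fin n → ℂ)) : Prop :=
  ∀ j i, IsCorner (lam j) i → finrank ℂ ↥(H ⊓ secantFlag (t j) (condDim n (lam j) i)) = i + 1

/-- The only linear map `φ : H → ℂⁿ/H` with `φ (H ∩ F) ⊆ (F + H)/H` for all `F = F^j_{n-k+i-λ^j_i}`,
`i` a corner of `λ^j`, is `0`: the tangent spaces at `H` of the Schubert varieties meet in `0`. -/
def TangentZero {n r k : ℕ} (lam : Fin r → Fin k → ℕ) (t : Fin r → Fin n → ℝ)
    (H : Submodule ℂ (Fin n → ℂ)) : Prop :=
  ∀ φ : ↥H →ₗ[ℂ] ((Fin n → ℂ) ⧸ H),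
    (∀ j i, IsCorner (lam j) i → ∀ v : ↥H,
      (v : Fin n → ℂ) ∈ secantFlag (t j) (condDim n (lam j) i) →
        φ v ∈ (secantFlag (t j) (condDim n (lam j) i)).map H.mkQ) → φ = 0

/-- `H` is real: stable under complex conjugation. -/
def IsRealSpace {n : ℕ} (H : Submodule ℂ (Fin n → ℂ)) : Prop := ∀ v ∈ H, star v ∈ H

/-- `λ^{j₁}_i + λ^{j₂}_{k+1-i} + ∑_{j ≠ j₁, j₂} λ^j_i = n - k` for all `i`. -/
def Complementary {k r : ℕ} (n : ℕ) (lam : Fin r → Fin k → ℕ) (j₁ j₂ : Fin r) : Prop :=
  ∀ i : Fin k, lam j₁ i + lam j₂ i.rev + ∑ j ∈ (Finset.univ.erase j₁).erase j₂, lam j i = n - k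

/-! ### Translation to the library -/

lemma secantFlag_eq {n : ℕ} (t : Fin n → ℝ) (d : ℕ) :
    secantFlag t d = SecantPosition.sflag t d := rfl

section

variable {n k r : ℕ} {lam : Fin r → Fin k → ℕ} {t : Fin r → Fin n → ℝ} {j₁ j₂ : Fin r}

/-- the intersection of the members `F^j_{n - a_j}`, `j ≠ j₁, j₂` -/
noncomputable def kk (n : ℕ) (a : Fin r → ℕ) (t : Fin r → Fin n → ℝ) (j₁ j₂ : Fin r) :
    Submodule ℂ (Fin n → ℂ) :=
  ⨅ j, ⨅ (_ : j ≠ j₁ ∧ j ≠ j₂), secantFlag (t j) (n - a j)

lemma mem_kk {a : Fin r → ℕ} {v : Fin n → ℂ} : v ∈ kk n a t j₁ j₂ ↔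
    ∀ j, j ≠ j₁ → j ≠ j₂ → v ∈ secantFlag (t j) (n - a j) := by
  simp only [kk, Submodule.mem_iInf]
  exact ⟨fun h j h1 h2 => h j ⟨h1, h2⟩, fun h j hj => h j hj.1 hj.2⟩

/-- the data of the library -/
lemma pos (hn : 0 < n) (ht : DisjointSecant t) (h12 : j₁ ≠ j₂) (a : Fin r → ℕ)
    (ha : ∀ j, a j ≤ n) :
    TwoFlags.Pos n (∑ j ∈ (Finset.univ.erase j₁).erase j₂, a j) (fun c => secantFlag (t j₁) c)
      (fun c => secantFlag (t j₂) c) (kk n a t j₁ j₂) where
  dimV := by simp
  monoF := fun c d h => SecantPosition.sflag_mono h _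
  monoG := fun c d h => SecantPosition.sflag_mono h _
  topF := SecantPosition.sflag_top (ht.1 j₁)
  topG := SecantPosition.sflag_top (ht.1 j₂)
  dimF := fun c hc => SecantPosition.finrank_sflag hc (ht.1 j₁)
  dimG := fun c hc => SecantPosition.finrank_sflag hc (ht.1 j₂)
  gp := by
    classical
    intro c e hc he
    obtain ⟨d, hd⟩ : ∃ d : Fin r → ℕ, d = fun j => if j = j₁ then c else if j = j₂ then e
      else n - a j := ⟨_, rfl⟩
    have d1 : d j₁ = c := by rw [hd]; simp
    have d2 : d j₂ = e := by rw [hd]; simp [h12.symm]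
    have d3 : ∀ j, j ≠ j₁ → j ≠ j₂ → d j = n - a j := by
      intro j h1 h2; rw [hd]; simp [h1, h2]
    have hdn : ∀ j, d j ≤ n := by
      intro j
      by_cases h1 : j = j₁
      · subst h1; omega
      · by_cases h2 : j = j₂
        · subst h2; omega
        · rw [d3 j h1 h2]; omega
    have h1 := SecantPosition.finrank_iInf_sflag hn t ht.1 ht.2 d hdn
    have h2 : (⨅ j, SecantPosition.sflag (t j) (d j)) =
        secantFlag (t j₁) c ⊓ secantFlag (t j₂) e ⊓ kk n a t j₁ j₂ := by
      ext v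
      rw [Submodule.mem_iInf, Submodule.mem_inf, Submodule.mem_inf, mem_kk]
      constructor
      · intro h
        refine ⟨⟨?_, ?_⟩, fun j h1 h2 => ?_⟩
        · have := h j₁; rw [d1] at this; exact this
        · have := h j₂; rw [d2] at this; exact this
        · have := h j; rw [d3 j h1 h2] at this; exact this
      · rintro ⟨⟨h1, h2⟩, h3⟩ j
        by_cases e1 : j = j₁
        · subst e1; rw [d1]; exact h1
        · by_cases e2 : j = j₂
          · subst e2; rw [d2]; exact h2
          · rw [d3 j e1 e2]; exact h3 j e1 e2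
    rw [h2] at h1
    rw [h1]
    have h3 : ∑ j, (n - d j) = (n - c) + ((n - e) +
        ∑ j ∈ (Finset.univ.erase j₁).erase j₂, a j) := by
      rw [← Finset.add_sum_erase _ _ (Finset.mem_univ j₁), d1,
        ← Finset.add_sum_erase _ _ (Finset.mem_erase.mpr ⟨h12.symm, Finset.mem_univ j₂⟩), d2]
      congr 2
      refine Finset.sum_congr rfl fun j hj => ?_
      rw [Finset.mem_erase, Finset.mem_erase] at hj
      rw [d3 j hj.2.1 hj.1]
      have := ha j
      omega
    rw [h3]
    omega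

/-- Schubert conditions of the solutions in the form of the library. -/
lemma cond_of_mem (hk : 0 < k) (hkn : k ≤ n)
    (hrect : ∀ j, j ≠ j₁ → j ≠ j₂ → ∀ i i', lam j i = lam j i')
    {H : Submodule ℂ (Fin n → ℂ)} (hH : H ∈ solutions k lam t) :
    TwoFlags.Cond (fun c => secantFlag (t j₁) c) (fun c => secantFlag (t j₂) c)
      (kk n (fun j => lam j ⟨0, hk⟩) t j₁ j₂) (fun i => condDim n (lam j₁) i)
      (fun i => condDim n (lam j₂) i.rev) H := by
  rw [solutions, Set.mem_iInter] at hH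
  refine ⟨(hH j₁).1, ?_, fun i => (hH j₁).2 i, fun i => ?_⟩
  · intro v hv
    rw [mem_kk]
    intro j h1 h2
    have h3 := (hH j).2 ⟨k - 1, by omega⟩
    have h4 : condDim n (lam j) ⟨k - 1, by omega⟩ = n - lam j ⟨0, hk⟩ := by
      rw [condDim, hrect j h1 h2 ⟨k - 1, by omega⟩ ⟨0, hk⟩]
      simp only
      omega
    rw [h4] at h3
    simp only at h3
    have h5 : H ⊓ secantFlag (t j) (n - lam j ⟨0, hk⟩) = H := by
      apply Submodule.eq_of_le_of_finrank_le inf_le_left
      rw [(hH j).1]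
      omega
    rw [← h5] at hv
    exact (Submodule.mem_inf.mp hv).2
  · have h1 := (hH j₂).2 i.rev
    have h2 := i.2
    rw [Fin.val_rev] at h1
    omega

lemma mem_of_cond (hk : 0 < k) (hkn : k ≤ n) (ht : DisjointSecant t)
    (hle : ∀ j i, lam j i ≤ n - k)
    (hrect : ∀ j, j ≠ j₁ → j ≠ j₂ → ∀ i i', lam j i = lam j i')
    {H : Submodule ℂ (Fin n → ℂ)}
    (hH : TwoFlags.Cond (fun c => secantFlag (t j₁) c) (fun c => secantFlag (t j₂) c)
      (kk n (fun j => lam j ⟨0, hk⟩) t j₁ j₂) (fun i => condDim n (lam j₁) i)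
      (fun i => condDim n (lam j₂) i.rev) H) : H ∈ solutions k lam t := by
  rw [solutions, Set.mem_iInter]
  intro j
  refine ⟨hH.dim, fun i => ?_⟩
  by_cases e1 : j = j₁
  · subst e1; exact hH.hF i
  · by_cases e2 : j = j₂
    · subst e2
      have h1 : k ≤ finrank ℂ ↥(H ⊓ secantFlag (t j) (condDim n (lam j) i.rev.rev)) +
          (i.rev : ℕ) := hH.hG i.rev
      rw [Fin.rev_rev, Fin.val_rev] at h1
      have h2 := i.2
      omega
    · have h1 : H ≤ secantFlag (t j) (n - lam j ⟨0, hk⟩) := fun v hv =>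
        mem_kk.mp (hH.le hv) j e1 e2
      have h2 := hle j i
      have h3 := i.2
      have h4 : condDim n (lam j) i ≤ n - lam j ⟨0, hk⟩ := by
        rw [condDim, hrect j e1 e2 i ⟨0, hk⟩]
        rw [hrect j e1 e2 i ⟨0, hk⟩] at h2
        omega
      have h5 := TwoFlags.inf_dim H (secantFlag (t j) (condDim n (lam j) i)) h1
        (SecantPosition.sflag_mono h4 _)
      rw [hH.dim, secantFlag_eq, secantFlag_eq, SecantPosition.finrank_sflag (by omega) (ht.1 j),
        SecantPosition.finrank_sflag (by omega) (ht.1 j)] at h5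
      rw [secantFlag_eq]
      rw [condDim, hrect j e1 e2 i ⟨0, hk⟩] at h5 ⊢
      rw [hrect j e1 e2 i ⟨0, hk⟩] at h2
      omega

lemma sum_other (hk : 0 < k)
    (hrect : ∀ j, j ≠ j₁ → j ≠ j₂ → ∀ i i', lam j i = lam j i') (i : Fin k) :
    ∑ j ∈ (Finset.univ.erase j₁).erase j₂, lam j i =
      ∑ j ∈ (Finset.univ.erase j₁).erase j₂, lam j ⟨0, hk⟩ := by
  refine Finset.sum_congr rfl fun j hj => ?_
  rw [Finset.mem_erase, Finset.mem_erase] at hj
  exact hrect j hj.2.1 hj.1 _ _

lemma condDim_le (hkn : k ≤ n) (lam' : Fin k → ℕ) (i : Fin k) : condDim n lam' i ≤ n := by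
  have := i.2
  rw [condDim]
  omega

lemma compl_of (hk : 0 < k) (hkn : k ≤ n) (hanti : ∀ j, Antitone (lam j))
    (hle : ∀ j i, lam j i ≤ n - k)
    (hrect : ∀ j, j ≠ j₁ → j ≠ j₂ → ∀ i i', lam j i = lam j i')
    (hc : Complementary n lam j₁ j₂) :
    TwoFlags.Compl n (∑ j ∈ (Finset.univ.erase j₁).erase j₂, lam j ⟨0, hk⟩)
      (fun i => condDim n (lam j₁) i) (fun i => condDim n (lam j₂) i.rev) where
  sum := by
    intro i
    have h1 := hc i
    rw [sum_other hk hrect i] at h1
    have h2 := hle j₁ i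
    have h3 := hle j₂ i.rev
    have h4 := i.2
    simp only [condDim, Fin.val_rev]
    omega
  le_c := fun i => condDim_le hkn _ _
  le_e := fun i => condDim_le hkn _ _
  strict := by
    intro i i' hii'
    have h1 := hanti j₁ hii'.le
    have h2 := hle j₁ i
    have h3 : (i : ℕ) < i' := hii'
    simp only [condDim]
    omega

lemma complementary_of_mem (hn : 0 < n) (hk : 0 < k) (hkn : k ≤ n)
    (hle : ∀ j i, lam j i ≤ n - k) (hsum : ∑ j, ∑ i, lam j i = k * (n - k))
    (ht : DisjointSecant t) (h12 : j₁ ≠ j₂)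
    (hrect : ∀ j, j ≠ j₁ → j ≠ j₂ → ∀ i i', lam j i = lam j i')
    {H : Submodule ℂ (Fin n → ℂ)} (hH : H ∈ solutions k lam t) :
    Complementary n lam j₁ j₂ := by
  have hP := pos hn ht h12 (fun j => lam j ⟨0, hk⟩) (fun j => by have := hle j ⟨0, hk⟩; omega)
  have hC := cond_of_mem hk hkn hrect hH
  have h1 : ∀ i : Fin k, lam j₁ i + lam j₂ i.rev +
      ∑ j ∈ (Finset.univ.erase j₁).erase j₂, lam j i ≤ n - k := by
    intro i
    have h2 := hC.le_sum hP i (condDim_le hkn _ _) (condDim_le hkn _ _)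
    rw [sum_other hk hrect i]
    have h3 := hle j₁ i
    have h4 := hle j₂ i.rev
    have h5 := i.2
    simp only [condDim, Fin.val_rev] at h2
    omega
  have h2 : ∑ i : Fin k, (lam j₁ i + lam j₂ i.rev +
      ∑ j ∈ (Finset.univ.erase j₁).erase j₂, lam j i) = ∑ i : Fin k, (n - k) := by
    rw [Finset.sum_add_distrib, Finset.sum_add_distrib, Finset.sum_comm]
    have h3 : ∑ i : Fin k, lam j₂ i.rev = ∑ i, lam j₂ i := Equiv.sum_comp Fin.revPerm (lam j₂)
    rw [h3, Finset.sum_const, Finset.card_univ, Fintype.card_fin, smul_eq_mul, ← hsum,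
      ← Finset.add_sum_erase _ (fun j => ∑ i, lam j i) (Finset.mem_univ j₁),
      ← Finset.add_sum_erase _ (fun j => ∑ i, lam j i)
        (Finset.mem_erase.mpr ⟨h12.symm, Finset.mem_univ j₂⟩)]
    ring
  intro i
  exact (Finset.sum_eq_sum_iff_of_le fun i _ => h1 i).mp h2 i (Finset.mem_univ i)

/-- conditions at the corners imply the conditions everywhere -/
lemma corner_all (lam' : Fin k → ℕ) (hanti : Antitone lam') (hle : ∀ i, lam' i ≤ n - k)
    (hkn : k ≤ n) {t' : Fin n → ℝ} (ht' : Function.Injective t') {H : Submodule ℂ (Fin n → ℂ)}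
    (hH : finrank ℂ H = k)
    (hex : ∀ i, finrank ℂ ↥(H ⊓ secantFlag t' (condDim n lam' i)) = (i : ℕ) + 1)
    (φ : ↥H →ₗ[ℂ] ((Fin n → ℂ) ⧸ H))
    (hφ : ∀ i, IsCorner lam' i → ∀ v : ↥H, (v : Fin n → ℂ) ∈ secantFlag t' (condDim n lam' i) →
        φ v ∈ (secantFlag t' (condDim n lam' i)).map H.mkQ) :
    ∀ i, ∀ v : ↥H, (v : Fin n → ℂ) ∈ secantFlag t' (condDim n lam' i) →
        φ v ∈ (secantFlag t' (condDim n lam' i)).map H.mkQ := by
  have hmap : ∀ (W : Submodule ℂ (Fin n → ℂ)) (w : Fin n → ℂ),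
      H.mkQ w ∈ W.map H.mkQ ↔ w ∈ W ⊔ H := by
    intro W w
    rw [← Submodule.mem_comap, Submodule.comap_map_mkQ, sup_comm]
  have key : ∀ m : ℕ, ∀ i : Fin k, (i : ℕ) + m + 1 = k → ∀ v : ↥H,
      (v : Fin n → ℂ) ∈ secantFlag t' (condDim n lam' i) →
        φ v ∈ (secantFlag t' (condDim n lam' i)).map H.mkQ := by
    intro m
    induction m with
    | zero =>
      intro i hi
      refine hφ i fun i' hi' => ?_
      have := i'.2
      omega
    | succ m ih =>
      intro i hi v hv
      by_cases hc : IsCorner lam' i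
      · exact hφ i hc v hv
      · unfold IsCorner at hc
        push Not at hc
        obtain ⟨i', hi', hl⟩ := hc
        have hlt : i < i' := by rw [Fin.lt_def]; omega
        have hl' : lam' i' = lam' i := le_antisymm (hanti hlt.le) hl
        have h1 := hle i
        have hcd : condDim n lam' i' = condDim n lam' i + 1 := by
          rw [condDim, condDim, hl', hi']; omega
        have hmono : secantFlag t' (condDim n lam' i) ≤ secantFlag t' (condDim n lam' i') :=
          SecantPosition.sflag_mono (by omega) _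
        have h2 := ih i' (by omega) v (hmono hv)
        have e1 := Submodule.finrank_sup_add_finrank_inf_eq
          (secantFlag t' (condDim n lam' i)) H
        have e2 := Submodule.finrank_sup_add_finrank_inf_eq
          (secantFlag t' (condDim n lam' i')) H
        have hfr : ∀ c ≤ n, finrank ℂ ↥(secantFlag t' c) = c := fun c hc =>
          SecantPosition.finrank_sflag hc ht'
        rw [inf_comm, hex, hH, hfr _ (condDim_le hkn _ _)] at e1 e2
        have e3 : secantFlag t' (condDim n lam' i) ⊔ H =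
            secantFlag t' (condDim n lam' i') ⊔ H := by
          apply Submodule.eq_of_le_of_finrank_eq (sup_le_sup_right hmono _)
          omega
        obtain ⟨w, hw⟩ := Submodule.mkQ_surjective H (φ v)
        rw [← hw, hmap] at h2 ⊢
        rw [e3]
        exact h2
  intro i v hv
  have := i.2
  exact key (k - 1 - i) i (by omega) v hv

end

theorem result {n k r : ℕ} (hk : 0 < k) (hkn : k ≤ n) (lam : Fin r → Fin k → ℕ)
    (hanti : ∀ j, Antitone (lam j)) (hle : ∀ j i, lam j i ≤ n - k)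
    (hsum : ∑ j, ∑ i, lam j i = k * (n - k)) (t : Fin r → Fin n → ℝ) (ht : DisjointSecant t)
    (j₁ j₂ : Fin r) (h12 : j₁ ≠ j₂)
    (hrect : ∀ j, j ≠ j₁ → j ≠ j₂ → ∀ i i', lam j i = lam j i') :
    (Complementary n lam j₁ j₂ → (solutions k lam t).ncard = 1) ∧
    (¬ Complementary n lam j₁ j₂ → solutions k lam t = ∅) ∧
    ∀ H ∈ solutions k lam t, IsRealSpace H ∧ ExactDims lam t H ∧ TangentZero lam t H := by
  have hn : 0 < n := by omega
  have hP := pos hn ht h12 (fun j => lam j ⟨0, hk⟩) (fun j => by have := hle j ⟨0, hk⟩; omega)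
  refine ⟨fun hc => ?_, fun hc => ?_, fun H hH => ?_⟩
  · have hC := compl_of hk hkn hanti hle hrect hc
    rw [Set.ncard_eq_one]
    refine ⟨_, Set.eq_singleton_iff_unique_mem.mpr
      ⟨mem_of_cond hk hkn ht hle hrect (TwoFlags.sol_cond hP hC), fun H hH => ?_⟩⟩
    exact TwoFlags.cond_unique hP hC (cond_of_mem hk hkn hrect hH)
  · rw [Set.eq_empty_iff_forall_notMem]
    intro H hH
    exact hc (complementary_of_mem hn hk hkn hle hsum ht h12 hrect hH)
  · have hc := complementary_of_mem hn hk hkn hle hsum ht h12 hrect hH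
    have hC := compl_of hk hkn hanti hle hrect hc
    have hcond := cond_of_mem hk hkn hrect hH
    have hexF : ∀ i : Fin k, finrank ℂ ↥(H ⊓ secantFlag (t j₁) (condDim n (lam j₁) i)) =
        (i : ℕ) + 1 := fun i => TwoFlags.exactF hP hC hcond i
    have hexG : ∀ i : Fin k, finrank ℂ ↥(H ⊓ secantFlag (t j₂) (condDim n (lam j₂) i)) =
        (i : ℕ) + 1 := by
      intro i
      have h1 : finrank ℂ ↥(H ⊓ secantFlag (t j₂) (condDim n (lam j₂) i.rev.rev)) +
          (i.rev : ℕ) = k := TwoFlags.exactG hP hC hcond i.rev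
      rw [Fin.rev_rev, Fin.val_rev] at h1
      have := i.2
      omega
    have hother : ∀ j, j ≠ j₁ → j ≠ j₂ → ∀ i, IsCorner (lam j) i →
        (i : ℕ) + 1 = k ∧ condDim n (lam j) i = n - lam j ⟨0, hk⟩ := by
      intro j h1 h2 i hi
      have h3 : (i : ℕ) + 1 = k := by
        by_contra hne
        have h4 := i.2
        have h5 := hi ⟨(i : ℕ) + 1, by omega⟩ rfl
        rw [hrect j h1 h2 ⟨(i : ℕ) + 1, by omega⟩ i] at h5
        exact lt_irrefl _ h5
      refine ⟨h3, ?_⟩
      rw [condDim, hrect j h1 h2 i ⟨0, hk⟩, h3]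
      omega
    have hleo : ∀ j, j ≠ j₁ → j ≠ j₂ → H ≤ secantFlag (t j) (n - lam j ⟨0, hk⟩) :=
      fun j h1 h2 v hv => mem_kk.mp (hcond.le hv) j h1 h2
    refine ⟨?_, ?_, ?_⟩
    · -- reality
      have hsol := TwoFlags.cond_unique hP hC hcond
      intro v hv
      rw [hsol] at hv ⊢
      unfold TwoFlags.sol at hv ⊢
      refine Submodule.iSup_induction _ (motive := fun v => star v ∈ _) hv ?_ ?_ ?_
      · intro i w hw
        refine Submodule.mem_iSup_of_mem i ?_
        unfold TwoFlags.line at hw ⊢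
        rw [Submodule.mem_inf, Submodule.mem_inf, mem_kk] at hw ⊢
        exact ⟨⟨SecantPosition.sflag_star _ _ hw.1.1, SecantPosition.sflag_star _ _ hw.1.2⟩,
          fun j h1 h2 => SecantPosition.sflag_star _ _ (hw.2 j h1 h2)⟩
      · rw [star_zero]; exact zero_mem _
      · intro x y hx hy
        rw [star_add]; exact add_mem hx hy
    · intro j i hi
      by_cases e1 : j = j₁
      · subst e1; exact hexF i
      · by_cases e2 : j = j₂
        · subst e2; exact hexG i
        · obtain ⟨h1, h2⟩ := hother j e1 e2 i hi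
          rw [h2, inf_eq_left.mpr (hleo j e1 e2), hcond.dim, h1]
    · intro φ hφ
      refine TwoFlags.tangent hP hC hcond φ ?_ ?_ ?_
      · exact corner_all (lam j₁) (hanti j₁) (hle j₁) hkn (ht.1 j₁) hcond.dim hexF φ (hφ j₁)
      · intro i
        exact corner_all (lam j₂) (hanti j₂) (hle j₂) hkn (ht.1 j₂) hcond.dim hexG φ (hφ j₂) i.rev
      · intro v
        obtain ⟨w, hw⟩ := Submodule.mkQ_surjective H (φ v)
        rw [← hw]
        refine Submodule.mem_map_of_mem ?_
        rw [mem_kk]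
        intro j h1 h2
        have hcor : IsCorner (lam j) ⟨k - 1, by omega⟩ := by
          intro i' hi'
          have := i'.2
          simp only at hi'
          omega
        obtain ⟨_, h3⟩ := hother j h1 h2 _ hcor
        have h4 := hφ j _ hcor v (by rw [h3]; exact hleo j h1 h2 v.2)
        rw [h3, ← hw, ← Submodule.mem_comap, Submodule.comap_map_mkQ,
          sup_eq_right.mpr (hleo j h1 h2)] at h4
        exact h4

end Pool.Agent.Results.MP_0c25eb_ag.FullHeightRectangles
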