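import Mathlib
import Pool.Agent.Lib.SecantPosition
import Pool.Agent.Secant6.NormalForm

/-!
# The Secant Conjecture for three equal partitions of shape `((q+r)^p, r^p, 0^p)`

Schubert problem `(λ, λ, λ)` in `Gr(3p, 3p + q + 2r)` with `λ = ((q+r)^p, r^p, 0^p)`, for all
`p ≥ 1` and `1 ≤ q ≤ r`; the number of solutions is `(p + q).choose p`.
-/

set_option autoImplicit false

namespace Pool.Agent.Results.MP_0c25eb_ag.ThreeFlags

open Module

/-- The point `γ(s) = (1, s, s², …, s^(n-1))` of `ℂⁿ` on the rational normal curve. -/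
noncomputable def gammaPt (n : ℕ) (s : ℝ) : Fin n → ℂ := fun b => (s : ℂ) ^ (b : ℕ)

/-- The `d`-dimensional member `F_d` of the secant flag with points of secancy
`t 0, t 1, …, t (n-1)`: the linear span of `γ(t 0), …, γ(t (d-1))`. -/
noncomputable def secantFlag {n : ℕ} (t : Fin n → ℝ) (d : ℕ) : Submodule ℂ (Fin n → ℂ) :=
  Submodule.span ℂ ((fun a : Fin n => gammaPt n (t a)) '' {a | (a : ℕ) < d})

/-- The dimension `n - k + i - λ_i` in the `i`-th Schubert condition; the index `i : Fin k` here is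
`i - 1` in this formula. -/
def condDim {k : ℕ} (n : ℕ) (lam : Fin k → ℕ) (i : Fin k) : ℕ := n - k + ((i : ℕ) + 1) - lam i

/-- The Schubert variety `X_λ F_•` in `Gr(k, n)` of a secant flag: all `H` with `dim H = k` and
`dim (H ∩ F_{n-k+i-λ_i}) ≥ i` for `i = 1, …, k` (the index `i : Fin k` below is `i - 1`). -/
def schubertVariety {n : ℕ} (k : ℕ) (lam : Fin k → ℕ) (t : Fin n → ℝ) :
    Set (Submodule ℂ (Fin n → ℂ)) :=
  {H | finrank ℂ H = k ∧
    ∀ i : Fin k, (i : ℕ) + 1 ≤ finrank ℂ ↥(H ⊓ secantFlag t (condDim n lam i))}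

/-- The flags with points of secancy `t j` are disjoint secant flags: the points of each flag are
distinct, and of any two flags, all points of one lie to the left of all points of the other. -/
def DisjointSecant {n r : ℕ} (t : Fin r → Fin n → ℝ) : Prop :=
  (∀ j, Function.Injective (t j)) ∧
    ∀ j j', j ≠ j' → (∀ a b, t j a < t j' b) ∨ (∀ a b, t j' a < t j b)

/-- The intersection of the Schubert varieties `X_{λ^j} F^j` in `Gr(k, n)`. -/
def solutions {n r : ℕ} (k : ℕ) (lam : Fin r → Fin k → ℕ) (t : Fin r → Fin n → ℝ) :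
    Set (Submodule ℂ (Fin n → ℂ)) :=
  ⋂ j, schubertVariety k (lam j) (t j)

/-- `i` is a corner of the partition: `λ_{i+1} < λ_i`, or `i` is the last index. The conditions at
the corners define the Schubert variety. -/
def IsCorner {k : ℕ} (lam : Fin k → ℕ) (i : Fin k) : Prop :=
  ∀ i' : Fin k, (i' : ℕ) = (i : ℕ) + 1 → lam i' < lam i

/-- At all corners `i` the dimension of `H ∩ F_{n-k+i-λ_i}` is exactly `i` (so `H` is a smooth
point of each Schubert variety). -/
def ExactDims {n r k : ℕ} (lam : Fin r → Fin k → ℕ) (t : Fin r → Fin n → ℝ)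
    (H : Submodule ℂ (Fin n → ℂ)) : Prop :=
  ∀ j i, IsCorner (lam j) i → finrank ℂ ↥(H ⊓ secantFlag (t j) (condDim n (lam j) i)) = i + 1

/-- The only linear map `φ : H → ℂⁿ/H` with `φ (H ∩ F) ⊆ (F + H)/H` for all `F = F^j_{n-k+i-λ^j_i}`,
`i` a corner of `λ^j`, is `0`: the tangent spaces at `H` of the Schubert varieties meet in `0`. -/
def TangentZero {n r k : ℕ} (lam : Fin r → Fin k → ℕ) (t : Fin r → Fin n → ℝ)
    (H : Submodule ℂ (Fin n → ℂ)) : Prop :=
  ∀ φ : ↥H →ₗ[ℂ] ((Fin n → ℂ) ⧸ H),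
    (∀ j i, IsCorner (lam j) i → ∀ v : ↥H,
      (v : Fin n → ℂ) ∈ secantFlag (t j) (condDim n (lam j) i) →
        φ v ∈ (secantFlag (t j) (condDim n (lam j) i)).map H.mkQ) → φ = 0

/-- `H` is real: stable under complex conjugation. -/
def IsRealSpace {n : ℕ} (H : Submodule ℂ (Fin n → ℂ)) : Prop := ∀ v ∈ H, star v ∈ H

/-- The partition `(q+r, …, q+r, r, …, r, 0, …, 0)` with `p` parts of each of the three kinds. -/
def twoStep (p q r : ℕ) : Fin (3 * p) → ℕ :=
  fun i => if (i : ℕ) < p then q + r else if (i : ℕ) < 2 * p then r else 0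

/-! ### The essential conditions -/

lemma secantFlag_eq {n : ℕ} (t : Fin n → ℝ) (d : ℕ) :
    secantFlag t d = SecantPosition.sflag t d := rfl

lemma finrank_secantFlag {n d : ℕ} (hd : d ≤ n) {t : Fin n → ℝ} (ht : Function.Injective t) :
    finrank ℂ (secantFlag t d) = d := SecantPosition.finrank_sflag hd ht

lemma secantFlag_mono {n d d' : ℕ} (h : d ≤ d') (t : Fin n → ℝ) :
    secantFlag t d ≤ secantFlag t d' := SecantPosition.sflag_mono h t

lemma inf_finrank {V : Type*} [AddCommGroup V] [Module ℂ V] [FiniteDimensional ℂ V]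
    {U F F' : Submodule ℂ V} (hU : U ≤ F) (hF : F' ≤ F) :
    finrank ℂ U + finrank ℂ F' ≤ finrank ℂ ↥(U ⊓ F') + finrank ℂ F := by
  have h1 := Submodule.finrank_sup_add_finrank_inf_eq U F'
  have h2 : finrank ℂ ↥(U ⊔ F') ≤ finrank ℂ F := Submodule.finrank_mono (sup_le hU hF)
  omega

/-- Passing from a member of a flag to a smaller one. -/
lemma drop {n : ℕ} {t : Fin n → ℝ} (ht : Function.Injective t) (H : Submodule ℂ (Fin n → ℂ))
    {d d' a : ℕ} (hd : d ≤ n) (hdd : d' ≤ d) (h : a ≤ finrank ℂ ↥(H ⊓ secantFlag t d)) :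
    a + d' ≤ finrank ℂ ↥(H ⊓ secantFlag t d') + d := by
  have h3 := inf_finrank (U := H ⊓ secantFlag t d) (F := secantFlag t d)
    (F' := secantFlag t d') inf_le_right (secantFlag_mono hdd t)
  rw [finrank_secantFlag (hdd.trans hd) ht, finrank_secantFlag hd ht, inf_assoc,
    inf_eq_right.mpr (secantFlag_mono hdd t)] at h3
  omega

lemma twoStep1 {p q r : ℕ} {i : Fin (3 * p)} (h : (i : ℕ) < p) : twoStep p q r i = q + r := by
  simp only [twoStep]; rw [if_pos h]

lemma twoStep2 {p q r : ℕ} {i : Fin (3 * p)} (h : ¬ (i : ℕ) < p) (h' : (i : ℕ) < 2 * p) :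
    twoStep p q r i = r := by
  simp only [twoStep]; rw [if_neg h, if_pos h']

lemma twoStep3 {p q r : ℕ} {i : Fin (3 * p)} (h : ¬ (i : ℕ) < 2 * p) :
    twoStep p q r i = 0 := by
  simp only [twoStep]; rw [if_neg (by omega), if_neg h]

/-- The corners of the partition. -/
lemma corner_cases {p q r : ℕ} {i : Fin (3 * p)} (h : IsCorner (twoStep p q r) i) :
    (i : ℕ) = p - 1 ∨ (i : ℕ) = 2 * p - 1 ∨ (i : ℕ) = 3 * p - 1 := by
  have hi := i.2
  by_contra hcon
  push Not at hcon
  obtain ⟨h1, h2, h3⟩ := hcon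
  have h4 := h ⟨(i : ℕ) + 1, by omega⟩ rfl
  by_cases c1 : (i : ℕ) < p
  · rw [twoStep1 c1, twoStep1 (by show (i : ℕ) + 1 < p; omega)] at h4
    omega
  · by_cases c2 : (i : ℕ) < 2 * p
    · rw [twoStep2 c1 c2, twoStep2 (by show ¬ (i : ℕ) + 1 < p; omega)
        (by show (i : ℕ) + 1 < 2 * p; omega)] at h4
      omega
    · rw [twoStep3 c2, twoStep3 (by show ¬ (i : ℕ) + 1 < 2 * p; omega)] at h4
      omega

lemma corner1 {p q r : ℕ} (hp : 0 < p) (hq : 0 < q) :
    IsCorner (twoStep p q r) ⟨p - 1, by omega⟩ := by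
  intro i' hi'
  have e : (i' : ℕ) = p := by rw [hi']; show p - 1 + 1 = p; omega
  rw [twoStep1 (i := ⟨p - 1, _⟩) (by show p - 1 < p; omega), twoStep2 (by omega) (by omega)]
  omega

lemma corner2 {p q r : ℕ} (hp : 0 < p) (hr : 0 < r) :
    IsCorner (twoStep p q r) ⟨2 * p - 1, by omega⟩ := by
  intro i' hi'
  have e : (i' : ℕ) = 2 * p := by rw [hi']; show 2 * p - 1 + 1 = 2 * p; omega
  rw [twoStep2 (i := ⟨2 * p - 1, _⟩) (by show ¬ 2 * p - 1 < p; omega)
    (by show 2 * p - 1 < 2 * p; omega), twoStep3 (by omega)]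
  exact hr

lemma condDim1 {p q r n : ℕ} (hp : 0 < p) (hn : n = 3 * p + q + 2 * r) :
    condDim n (twoStep p q r) ⟨p - 1, by omega⟩ = p + r := by
  rw [condDim, twoStep1 (by show p - 1 < p; omega)]
  show n - 3 * p + (p - 1 + 1) - (q + r) = p + r
  omega

lemma condDim2 {p q r n : ℕ} (hp : 0 < p) (hn : n = 3 * p + q + 2 * r) :
    condDim n (twoStep p q r) ⟨2 * p - 1, by omega⟩ = 2 * p + q + r := by
  rw [condDim, twoStep2 (by show ¬ 2 * p - 1 < p; omega) (by show 2 * p - 1 < 2 * p; omega)]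
  show n - 3 * p + (2 * p - 1 + 1) - r = 2 * p + q + r
  omega

/-- Only the two essential conditions matter. -/
lemma mem_schubert {p q r n : ℕ} (hp : 0 < p) (hn : n = 3 * p + q + 2 * r) {t : Fin n → ℝ}
    (ht : Function.Injective t) (H : Submodule ℂ (Fin n → ℂ)) :
    H ∈ schubertVariety (3 * p) (twoStep p q r) t ↔
      finrank ℂ H = 3 * p ∧ p ≤ finrank ℂ ↥(H ⊓ secantFlag t (p + r)) ∧
        2 * p ≤ finrank ℂ ↥(H ⊓ secantFlag t (2 * p + q + r)) := by
  constructor
  · rintro ⟨h1, h2⟩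
    refine ⟨h1, ?_, ?_⟩
    · have h3 : (p - 1) + 1 ≤ finrank ℂ ↥(H ⊓ secantFlag t
          (condDim n (twoStep p q r) ⟨p - 1, by omega⟩)) := h2 ⟨p - 1, by omega⟩
      rw [condDim1 hp hn] at h3
      omega
    · have h3 : (2 * p - 1) + 1 ≤ finrank ℂ ↥(H ⊓ secantFlag t
          (condDim n (twoStep p q r) ⟨2 * p - 1, by omega⟩)) := h2 ⟨2 * p - 1, by omega⟩
      rw [condDim2 hp hn] at h3
      omega
  · rintro ⟨h1, h2, h3⟩
    refine ⟨h1, fun i => ?_⟩
    have hi2 := i.2
    rw [condDim]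
    by_cases hi : (i : ℕ) < p
    · rw [twoStep1 hi]
      have e2 : n - 3 * p + ((i : ℕ) + 1) - (q + r) = r + ((i : ℕ) + 1) := by omega
      rw [e2]
      have h4 := drop ht H (d := p + r) (d' := r + ((i : ℕ) + 1)) (by omega) (by omega) h2
      omega
    · by_cases hi' : (i : ℕ) < 2 * p
      · rw [twoStep2 hi hi']
        have e2 : n - 3 * p + ((i : ℕ) + 1) - r = q + r + ((i : ℕ) + 1) := by omega
        rw [e2]
        have h4 := drop ht H (d := 2 * p + q + r) (d' := q + r + ((i : ℕ) + 1)) (by omega)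
          (by omega) h3
        omega
      · rw [twoStep3 hi']
        have h5 : secantFlag t n = ⊤ := SecantPosition.sflag_top ht
        have h4 := drop ht H (a := 3 * p) (d := n) (d' := n - 3 * p + ((i : ℕ) + 1) - 0) le_rfl
          (by omega) (by rw [h5, inf_top_eq, h1])
        omega

/-! ### The theorem -/

open Pool.Agent.Secant6 in
/-- The theorem for ordered intervals of secancy. -/
lemma core_ordered {p q r n : ℕ} (hp : 0 < p) (hq : 0 < q) (hqr : q ≤ r)
    (hn : n = 3 * p + q + 2 * r) {t : Fin 3 → Fin n → ℝ}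
    (ht : ∀ j, Function.Injective (t j)) (hord : ∀ j j', j < j' → ∀ a b, t j a < t j' b) :
    (solutions (3 * p) (fun _ => twoStep p q r) t).Finite ∧
    (solutions (3 * p) (fun _ => twoStep p q r) t).ncard = (p + q).choose p ∧
    ∀ H ∈ solutions (3 * p) (fun _ => twoStep p q r) t, IsRealSpace H ∧
      ExactDims (fun _ => twoStep p q r) t H ∧ TangentZero (fun _ => twoStep p q r) t H := by
  classical
  obtain ⟨N, hNX, hNY, hNZ⟩ := exists_triple' (m := p + q) (s := p + r) (s' := 2 * p + q + r)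
    (by omega) (by omega) (by omega : n = (p + q) + 2 * (p + r)) (by omega) ht hord
  have hX : solutions (3 * p) (fun _ => twoStep p q r) t =
      N.sub '' {S : Finset (Fin (p + q)) | S.card = p} := by
    ext H
    rw [solutions, Set.mem_iInter]
    constructor
    · intro h
      have h1 := fun j => (mem_schubert hp hn (ht j) H).mp (h j)
      obtain ⟨S, hS, rfl⟩ := (N.mem_iff p H).mp ⟨(h1 0).1, (h1 0).2.1, (h1 0).2.2,
        (h1 1).2.1, (h1 1).2.2, (h1 2).2.1, (h1 2).2.2⟩
      exact ⟨S, hS, rfl⟩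
    · rintro ⟨S, hS, rfl⟩ j
      rw [mem_schubert hp hn (ht j)]
      obtain ⟨h1, h2, h3, h4, h5, h6, h7⟩ := (N.mem_iff p (N.sub S)).mpr ⟨S, hS, rfl⟩
      refine ⟨h1, ?_⟩
      fin_cases j
      · exact ⟨h2, h3⟩
      · exact ⟨h4, h5⟩
      · exact ⟨h6, h7⟩
  have hset : {S : Finset (Fin (p + q)) | S.card = p} =
      ((Finset.univ.powersetCard p : Finset (Finset (Fin (p + q)))) :
        Set (Finset (Fin (p + q)))) := by
    ext S
    simp [Finset.mem_powersetCard]
  rw [hX]
  refine ⟨(Set.toFinite _).image _, ?_, ?_⟩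
  · rw [Set.ncard_image_of_injective _ N.sub_injective, hset, Set.ncard_coe_finset,
      Finset.card_powersetCard, Finset.card_univ, Fintype.card_fin]
  · rintro _ ⟨S, hS, rfl⟩
    have hS' : S.card = p := hS
    refine ⟨fun v hv => star_mem_sub N hNX hNY hNZ S hv, ?_, ?_⟩
    · intro j i hc
      have hex : finrank ℂ ↥(N.sub S ⊓ secantFlag (t j) (p + r)) = p ∧
          finrank ℂ ↥(N.sub S ⊓ secantFlag (t j) (2 * p + q + r)) = 2 * p := by
        fin_cases j
        · exact ⟨(N.finrank_sub_A1 S).trans hS', (N.finrank_sub_A2 S).trans (by rw [hS'])⟩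
        · exact ⟨(N.finrank_sub_B1 S).trans hS', (N.finrank_sub_B2 S).trans (by rw [hS'])⟩
        · exact ⟨(N.finrank_sub_C1 S).trans hS', (N.finrank_sub_C2 S).trans (by rw [hS'])⟩
      rcases corner_cases hc with h | h | h
      · have e : i = ⟨p - 1, by omega⟩ := Fin.ext h
        rw [e, condDim1 hp hn, hex.1]
        show p = p - 1 + 1
        omega
      · have e : i = ⟨2 * p - 1, by omega⟩ := Fin.ext h
        rw [e, condDim2 hp hn, hex.2]
        show 2 * p = 2 * p - 1 + 1
        omega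
      · have e1 : condDim n (twoStep p q r) i = n := by
          rw [condDim, twoStep3 (by omega)]
          omega
        have e2 : secantFlag (t j) n = ⊤ := SecantPosition.sflag_top (ht j)
        rw [e1, e2, inf_top_eq, N.finrank_sub, hS', h]
        omega
    · intro φ hφ
      have aux : ∀ (j : Fin 3) (d : ℕ), (d = p + r ∨ d = 2 * p + q + r) →
          ∀ v : ↥(N.sub S), (v : Fin n → ℂ) ∈ secantFlag (t j) d →
            ∃ f ∈ secantFlag (t j) d, φ v = (N.sub S).mkQ f := by
        intro j d hd v hv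
        have h0 : φ v ∈ (secantFlag (t j) d).map (N.sub S).mkQ := by
          rcases hd with rfl | rfl
          · have h1 := hφ j ⟨p - 1, by omega⟩ (corner1 hp hq) v
            rw [condDim1 hp hn] at h1
            exact h1 hv
          · have h1 := hφ j ⟨2 * p - 1, by omega⟩ (corner2 hp (by omega)) v
            rw [condDim2 hp hn] at h1
            exact h1 hv
        obtain ⟨f, hf, hf2⟩ := h0
        exact ⟨f, hf, hf2.symm⟩
      exact N.tangent_trivial S _ rfl φ (aux 0 _ (Or.inl rfl)) (aux 0 _ (Or.inr rfl))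
        (aux 1 _ (Or.inl rfl)) (aux 1 _ (Or.inr rfl)) (aux 2 _ (Or.inl rfl))
        (aux 2 _ (Or.inr rfl))

/-- **The Secant Conjecture for three equal partitions `((q+r)^p, r^p, 0^p)`.**  For all `p ≥ 1`,
`1 ≤ q ≤ r`, the Schubert problem `(λ, λ, λ)` with `λ = ((q+r)^p, r^p, 0^p)` in
`Gr(3p, 3p + q + 2r)` and any three disjoint secant flags: the intersection of the three Schubert
varieties is finite, it consists of exactly `(p + q).choose p` points, every point `H` is real,
`H` is in general relative position to the three flags at the corners of `λ` (so that `H` is a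
smooth point of each of the three Schubert varieties), and the tangent spaces of the three
Schubert varieties at `H` meet in `0` (so that the intersection is transverse at `H`). -/
theorem result (p q r n : ℕ) (hp : 1 ≤ p) (hq : 1 ≤ q) (hqr : q ≤ r)
    (hn : n = 3 * p + q + 2 * r) (t : Fin 3 → Fin n → ℝ) (ht : DisjointSecant t) :
    (solutions (3 * p) (fun _ => twoStep p q r) t).Finite ∧
      (solutions (3 * p) (fun _ => twoStep p q r) t).ncard = (p + q).choose p ∧
      ∀ H ∈ solutions (3 * p) (fun _ => twoStep p q r) t, IsRealSpace H ∧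
        ExactDims (fun _ => twoStep p q r) t H ∧ TangentZero (fun _ => twoStep p q r) t H := by
  obtain ⟨hinj, hsep⟩ := ht
  have hn0 : 0 < n := by omega
  set f : Fin 3 → ℝ := fun j => t j ⟨0, hn0⟩ with hf
  set σ := Tuple.sort f with hσ
  have hmono : Monotone (f ∘ σ) := Tuple.monotone_sort f
  have hord : ∀ j j', j < j' → ∀ a b, t (σ j) a < t (σ j') b := by
    intro j j' hjj'
    have h1 : f (σ j) ≤ f (σ j') := hmono hjj'.le
    rcases hsep (σ j) (σ j') (fun h => hjj'.ne (σ.injective h)) with h | h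
    · exact h
    · exact absurd h1 (not_le.mpr (h _ _))
  have key := core_ordered (t := fun j => t (σ j)) hp hq hqr hn (fun j => hinj (σ j)) hord
  have hX : solutions (3 * p) (fun _ => twoStep p q r) (fun j => t (σ j)) =
      solutions (3 * p) (fun _ => twoStep p q r) t :=
    σ.surjective.iInter_comp (fun j => schubertVariety (3 * p) (twoStep p q r) (t j))
  rw [hX] at key
  obtain ⟨k1, k2, k3⟩ := key
  refine ⟨k1, k2, fun H hH => ?_⟩
  obtain ⟨c1, c2, c3⟩ := k3 H hH
  refine ⟨c1, fun j i hc => ?_, fun φ hφ => c3 φ (fun j => hφ (σ j))⟩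
  have h9 : finrank ℂ ↥(H ⊓ secantFlag (t (σ (σ.symm j))) (condDim n (twoStep p q r) i)) =
      (i : ℕ) + 1 := c2 (σ.symm j) i hc
  have e9 : t (σ (σ.symm j)) = t j := by rw [Equiv.apply_symm_apply]
  rw [e9] at h9
  exact h9

end Pool.Agent.Results.MP_0c25eb_ag.ThreeFlags
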